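import Pool.Agent.helper78.NLS.Spec

/-!
# NLS.PSP: properties of the coefficients of the formal solution
-/

set_option autoImplicit false

open Complex Metric Set Filter Topology MeasureTheory MPS
open Pool.Agent.helper98.ILF Pool.Agent.helper16.Multibrot

noncomputable section

namespace NLS

theorem PSP_om_ne (n : ℕ) : om n ≠ 0 := Complex.exp_ne_zero _

theorem PSP_ps_succ (m : ℂ → ℂ) (j : ℕ) : ps m (j + 1) = Ct (hp m j) := rfl

theorem PSP_Sc_hp (hA : ALG_stmt) {R : ℝ} {m : ℂ → ℂ} (hm : Sc R m) {j : ℕ} (h : Sm (ps m j)) :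
    Sc R (hp m j) := by
  obtain ⟨h1, h2, -⟩ := hA
  have h3 := (h2 _ h).2.1
  refine ⟨(h1 m (dd (ps m j)) hm.sm h3).2.2.1, ?_⟩
  intro z hz
  show m z * dd (ps m j) z = 0
  rw [hm.supp z hz, zero_mul]

theorem PSP_sm (hA : ALG_stmt) (hC : CTS_stmt) {R : ℝ} {m : ℂ → ℂ} (hm : Sc R m) (j : ℕ) :
    Sm (ps m j) := by
  induction j with
  | zero => exact hA.2.2.2.2.2.1.1
  | succ j ih =>
    rw [PSP_ps_succ]
    exact (hC.2 R _ (PSP_Sc_hp hA hm ih)).1

theorem PSP_hp0 (hA : ALG_stmt) (m : ℂ → ℂ) : hp m 0 = m := by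
  funext z
  show m z * dd (fun z : ℂ => z) z = m z
  rw [(hA.2.2.2.2.2.1.2 z).1, mul_one]

theorem PSP_norm (hA : ALG_stmt) (hC : CTS_stmt) (hI : ISO_stmt) {R : ℝ} {m : ℂ → ℂ} (hR : 0 < R)
    (hm : Sc R m) (hb : ∀ z, ‖m z‖ ≤ 1) (j : ℕ) : eLpNorm (hp m j) 2 volume ≤ eLpNorm m 2 volume := by
  induction j with
  | zero => rw [PSP_hp0 hA]
  | succ j ih =>
    have h1 := PSP_Sc_hp hA hm (PSP_sm hA hC hm j)
    have h2 := (hI R _ hR h1).2.2
    refine le_trans ?_ (le_trans h2.le ih)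
    apply eLpNorm_mono
    intro z
    show ‖m z * dd (ps m (j + 1)) z‖ ≤ ‖dd (Ct (hp m j)) z‖
    rw [norm_mul, PSP_ps_succ]
    exact mul_le_of_le_one_left (norm_nonneg _) (hb z)

theorem PSP_sym (hA : ALG_stmt) (hC : CTS_stmt) (hRo : ROT_stmt) {n : ℕ} (hn : 1 ≤ n) {R : ℝ} {m : ℂ → ℂ}
    (hm : Sc R m) (hS : Sy n m) (j : ℕ) : ∀ z, ps m j (om n * z) = om n * ps m j z := by
  induction j with
  | zero => intro z; rfl
  | succ j ih =>
    intro z
    rw [PSP_ps_succ]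
    have hsm := PSP_sm hA hC hm j
    have h1 := PSP_Sc_hp hA hm hsm
    apply (hRo n hn).1 R _ h1
    intro w
    have h2 : dd (fun z => ps m j (om n * z)) w = om n * dd (ps m j) (om n * w) :=
      (hA.2.2.2.1 (om n) _ hsm).2.2 w
    have h3 : dd (fun z => om n * ps m j z) w = om n * dd (ps m j) w :=
      (hA.2.2.2.2.1 (om n) _ hsm).2.2 w
    have h4 : (fun z => ps m j (om n * z)) = (fun z => om n * ps m j z) := funext ih
    rw [h4, h3] at h2
    have h5 : dd (ps m j) w = dd (ps m j) (om n * w) := mul_left_cancel₀ (PSP_om_ne n) h2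
    show m (om n * w) * dd (ps m j) (om n * w) = om n ^ 2 * (m w * dd (ps m j) w)
    rw [hS w, ← h5]
    ring

theorem PSP (hA : ALG_stmt) (hC : CTS_stmt) (hP : CTP_stmt) (hG : CTG_stmt) (hI : ISO_stmt)
    (hRo : ROT_stmt) : PSP_stmt := by
  intro n R m hn hR hm hb
  refine ⟨?_, ?_, ?_⟩
  · intro j
    have hsm := PSP_sm hA hC hm j
    have h1 := PSP_Sc_hp hA hm hsm
    refine ⟨hsm, h1, ?_, ?_, PSP_norm hA hC hI hR hm hb j, ?_⟩
    · intro z hz
      show m z * dd (ps m j) z = 0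
      rw [hz, zero_mul]
    · intro z
      rw [PSP_ps_succ]
      exact hP R _ h1 z
    · obtain ⟨C, hC0, hC1⟩ := hG R _ hR h1
      refine ⟨C, hC0, fun z => ?_⟩
      rw [PSP_ps_succ]
      exact (hC1 z).1
  · intro z
    refine ⟨by rw [PSP_hp0 hA], ?_⟩
    exact (hA.2.2.2.2.2.1.2 z).2
  · intro hS j
    exact PSP_sym hA hC hRo hn hm hS j

end NLS
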